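import Pool.Agent.Y507.CMC.Bal
import Pool.Agent.Y507.CMC.Ints
import Pool.Agent.Y748.CMC.Cur
import Pool.Agent.Y905.CMC.Dom
import Pool.Agent.Y681.CMC.Vol
import Pool.Agent.Y145.CMC.Cvx
import Pool.Agent.Y974.CMC.Int1
import Pool.Agent.Y507.CMC.Int2

/-! # Constant mean curvature surfaces spanning a planar curve: a small part of the interval

The balance of fluxes and torques shows `2 |H| |∫_D φ| ≤ ∫_C |φ| ds` for every affine function `φ`
of the plane and every compact immersed surface of constant mean curvature `H` with boundary `C`.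
We use it to show that the interval `[0, L / (2 |D|)]` of Q1 may be too large by an arbitrary
factor, and by a definite factor for convex curves.
-/

open Set MeasureTheory
open scoped Manifold ContDiff InnerProductSpace

namespace Pool.Agent.Results.MP_07eaf5_gt.SmallFraction

/-- The Euclidean plane. -/
abbrev E2 := EuclideanSpace ℝ (Fin 2)

/-- Euclidean three-space. -/
abbrev E3 := EuclideanSpace ℝ (Fin 3)

/-- The plane `P = {x₃ = 0}` of three-space, parametrised by `ℝ²`. -/
def inclP (x : E2) : E3 := !₂[x 0, x 1, 0]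

/-- `γ` is a smooth regular parametrisation, of period `1` and injective on `[0, 1)`, of a simple
closed curve of the plane. -/
structure IsSimpleClosed (γ : ℝ → E2) : Prop where
  smooth : ContDiff ℝ ∞ γ
  periodic : Function.Periodic γ 1
  regular : ∀ t, deriv γ t ≠ 0
  injective : InjOn γ (Ico 0 1)

/-- The length of the curve. -/
noncomputable def length (γ : ℝ → E2) : ℝ := ∫ t in (0:ℝ)..1, ‖deriv γ t‖

/-- `D` is the domain enclosed by the closed curve `C`: it is open, connected (in particular
nonempty) and bounded, and `C` is its topological boundary. -/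
structure Encloses (C D : Set E2) : Prop where
  isOpen : IsOpen D
  isConnected : IsConnected D
  isBounded : Bornology.IsBounded D
  frontier_eq : frontier D = C

/-- The area of the domain `D`. -/
noncomputable def area (D : Set E2) : ℝ := (volume D).toReal

/-- The dot product of `ℝ³`. -/
noncomputable def dot (x y : E3) : ℝ := ⟪x, y⟫_ℝ

section Surface

variable {M : Type*} [TopologicalSpace M] [ChartedSpace (EuclideanHalfSpace 2) M]

/-- The map `f` from the surface with boundary `M` to `ℝ³` is smooth (up to the boundary). -/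
def IsSmooth (f : M → E3) : Prop := ContMDiff (𝓡∂ 2) 𝓘(ℝ, E3) ∞ f

/-- The tangent plane of the surface with boundary `M` at `p`. -/
abbrev Tan (p : M) := TangentSpace (𝓡∂ 2) p

/-- The differential of `f : M → ℝ³` at `p`, a linear map from the tangent plane, which is the
space `ℝ²` (identified by the preferred chart at `p`), to `ℝ³`. -/
noncomputable def diffL (f : M → E3) (p : M) : E2 →L[ℝ] E3 := mfderiv (𝓡∂ 2) 𝓘(ℝ, E3) f p

/-- The differential of `f : M → ℝ³` at `p`, applied to the tangent vector `v`. -/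
noncomputable def dmap (f : M → E3) (p : M) (v : Tan p) : E3 := diffL f p v

/-- The boundary of the surface with boundary `M`. -/
def bdry (M : Type*) [TopologicalSpace M] [ChartedSpace (EuclideanHalfSpace 2) M] : Set M :=
  (𝓡∂ 2).boundary M

/-- `v`, `w` is an orthonormal basis of the tangent plane at `p` for the metric induced by `f`. -/
def IsOrthonormal (f : M → E3) (p : M) (v w : Tan p) : Prop :=
  dot (dmap f p v) (dmap f p v) = 1 ∧ dot (dmap f p w) (dmap f p w) = 1 ∧
    dot (dmap f p v) (dmap f p w) = 0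

/-- `f : M → ℝ³` is a smooth immersion of the surface with boundary `M`, with smooth unit
normal field `N`, whose mean curvature (with respect to `N`) is the constant `H`. The mean
curvature at `p` is `-1/2` times the trace of the derivative of `N`, computed in a basis of
`T_p M` orthonormal for the induced metric. -/
structure IsCMCImmersion (f N : M → E3) (H : ℝ) : Prop where
  smooth_map : IsSmooth f
  immersion : ∀ p : M, Function.Injective (dmap f p)
  smooth_normal : IsSmooth N
  norm_normal : ∀ p : M, dot (N p) (N p) = 1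
  inner_normal : ∀ (p : M) (v : Tan p), dot (N p) (dmap f p v) = 0
  mean_curvature : ∀ (p : M) (v w : Tan p), IsOrthonormal f p v w →
    -(dot (dmap N p v) (dmap f p v) + dot (dmap N p w) (dmap f p w)) / 2 = H

/-- The immersion `f` maps the boundary of `M` bijectively onto the set `C` of the plane `P`. -/
def BoundaryIs (f : M → E3) (C : Set E2) : Prop :=
  InjOn f (bdry M) ∧ f '' bdry M = inclP '' C

lemma IsCMCImmersion.toOld {f N : M → E3} {H : ℝ} (h : IsCMCImmersion f N H) :
    Helper608.IsCMCImmersion f N H := by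
  refine ⟨h.smooth_map, h.immersion, h.smooth_normal, ?_, h.inner_normal, ?_⟩
  · intro p
    have h1 := h.norm_normal p
    unfold dot at h1
    rw [real_inner_self_eq_norm_sq] at h1
    nlinarith [norm_nonneg (N p)]
  · intro p v w hv hw hvw
    apply h.mean_curvature p v w
    refine ⟨?_, ?_, hvw⟩
    · unfold dot
      rw [real_inner_self_eq_norm_sq]
      have : ‖dmap f p v‖ = 1 := hv
      rw [this]; norm_num
    · unfold dot
      rw [real_inner_self_eq_norm_sq]
      have : ‖dmap f p w‖ = 1 := hw
      rw [this]; norm_num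

end Surface

/-- Every compact orientable immersed surface of constant mean curvature `H` with boundary `C`
satisfies `|H| ≤ h`. In the notation of the problem: `J_C ⊆ [0, h]`. -/
def HBound (C : Set E2) (h : ℝ) : Prop :=
  ∀ (M : Type*) [TopologicalSpace M] [T2Space M] [CompactSpace M]
    [ChartedSpace (EuclideanHalfSpace 2) M] [IsManifold (𝓡∂ 2) ∞ M] (f N : M → E3) (H : ℝ),
    IsCMCImmersion f N H → BoundaryIs f C → |H| ≤ h

lemma length_eq (γ : ℝ → E2) : length γ = ∫ t in Ico (0:ℝ) 1, ‖deriv γ t‖ := by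
  rw [length, intervalIntegral.integral_of_le zero_le_one, integral_Ico_eq_integral_Ioo,
    integral_Ioc_eq_integral_Ioo]

open Pool.Agent.Y507.CMC in
theorem part1 (hCUR : S_CUR) (hDOM : S_DOM) (hVOL : S_VOL) (hINT : S_INT1) (K : ℝ) :
    ∃ (γ : ℝ → E2) (D : Set E2), IsSimpleClosed γ ∧ Encloses (range γ) D ∧ area D = Real.pi ∧
      K ≤ length γ / (2 * area D) ∧ HBound (range γ) 8 := by
  have hpi := Real.pi_pos
  set a : ℝ := max 2 (2 * Real.pi * K / 3) with ha
  have ha2 : 2 ≤ a := le_max_left _ _
  have haK : 2 * Real.pi * K / 3 ≤ a := le_max_right _ _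
  have hg : ContDiff ℝ ∞ (g0 a) := by
    unfold g0
    refine ContDiff.div (by fun_prop) (ContDiff.sqrt (by fun_prop) fun x => ?_) fun x => ?_
    · positivity
    · have : 0 < 1 + (a * (x - 1 / 2)) ^ 2 := by positivity
      exact (Real.sqrt_pos.2 this).ne'
  obtain ⟨c1, c2, c3, c4, -, -⟩ := hCUR (g0 a) (fun _ => 1) hg contDiff_const fun _ => one_pos
  obtain ⟨d1, d2, d3, d4⟩ := hDOM (g0 a) (fun _ => 1) hg.continuous continuous_const
    fun _ => one_pos
  obtain ⟨i1, i2, i3, i4⟩ := hINT hCUR a ha2
  have harea : area (dom (g0 a) fun _ => 1) = Real.pi := by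
    unfold area
    rw [hVOL (g0 a) (fun _ => 1) hg.continuous continuous_const fun _ => one_pos]
    exact area_one
  refine ⟨cur (g0 a) fun _ => 1, dom (g0 a) fun _ => 1, ⟨c1, c2, c3, c4⟩, ⟨d1, d2, d3, d4⟩,
    harea, ?_, ?_⟩
  · rw [harea, length_eq, le_div_iff₀ (by positivity)]
    have : K * (2 * Real.pi) = 3 * (2 * Real.pi * K / 3) := by ring
    rw [this]
    linarith
  · intro M _ _ _ _ _ f N H h hb
    have key := bal_planar c1 c2 c3 c4 h.toOld hb.1 hb.2 (-(1 / 2)) 1
    rw [i3, i4, mul_zero, add_zero] at key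
    have e1 : ∫ t in Ico (0:ℝ) 1, |-(1 / 2) + 1 * cur (g0 a) (fun _ => 1) t 0| *
        ‖deriv (cur (g0 a) fun _ => 1) t‖ = ∫ t in Ico (0 : ℝ) 1,
        |cur (g0 a) (fun _ => 1) t 0 - 1 / 2| * ‖deriv (cur (g0 a) fun _ => 1) t‖ := by
      refine integral_congr_ae (Filter.Eventually.of_forall fun t => ?_)
      simp only
      congr 2
      ring
    rw [e1] at key
    have e2 : |2 * H * (-(1 / 2) * Real.pi)| = |H| * Real.pi := by
      have : 2 * H * (-(1 / 2) * Real.pi) = -(H * Real.pi) := by ring
      rw [this, abs_neg, abs_mul, abs_of_pos hpi]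
    rw [e2] at key
    have := key.trans i2
    exact le_of_mul_le_mul_right this hpi

open Pool.Agent.Y507.CMC in
theorem part2 (hCUR : S_CUR) (hDOM : S_DOM) (hVOL : S_VOL) (hCVX : S_CVX) (hINT : S_INT2) :
    ∃ (γ : ℝ → E2) (D : Set E2), IsSimpleClosed γ ∧ Encloses (range γ) D ∧ Convex ℝ D ∧
      HBound (range γ) (6 / 7 * (length γ / (2 * area D))) := by
  have hpi := Real.pi_pos
  obtain ⟨w, hw⟩ : ∃ w : ℝ, w = 1 / 1000 := ⟨_, rfl⟩
  have hw0 : 0 < w := by rw [hw]; norm_num
  have hk0 : ∀ x, 0 < k0 w x := by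
    intro x
    unfold k0
    refine mul_pos hw0 ?_
    nlinarith [sq_nonneg (x + 15 / 8)]
  have hk : ContDiff ℝ ∞ (k0 w) := by
    unfold k0
    fun_prop
  obtain ⟨c1, c2, c3, c4, -, -⟩ := hCUR (fun _ => 0) (k0 w) contDiff_const hk hk0
  obtain ⟨d1, d2, d3, d4⟩ := hDOM (fun _ => 0) (k0 w) continuous_const hk.continuous hk0
  obtain ⟨i1, i2, i3, i4⟩ := hINT hCUR w hw0
  have harea : area (dom (fun _ => 0) (k0 w)) = 21 / 20 * Real.pi * w := by
    unfold area
    rw [hVOL (fun _ => 0) (k0 w) continuous_const hk.continuous hk0]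
    exact area_k0 w
  refine ⟨cur (fun _ => 0) (k0 w), dom (fun _ => 0) (k0 w), ⟨c1, c2, c3, c4⟩, ⟨d1, d2, d3, d4⟩,
    hCVX w hw0, ?_⟩
  intro M _ _ _ _ _ f N H h hb
  have key := bal_planar c1 c2 c3 c4 h.toOld hb.1 hb.2 1 1
  simp only [one_mul] at key
  rw [i3, i4] at key
  have k1 := key.trans i2
  have e2 : |2 * H * (21 / 20 * Real.pi * w + 3 / 16 * Real.pi * w)| =
      |H| * (99 / 40 * Real.pi * w) := by
    have : 2 * H * (21 / 20 * Real.pi * w + 3 / 16 * Real.pi * w) =
        H * (99 / 40 * Real.pi * w) := by ring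
    rw [this, abs_mul, abs_of_pos (by positivity : (0:ℝ) < 99 / 40 * Real.pi * w)]
  rw [e2] at k1
  rw [harea, length_eq]
  set L := ∫ t in Ico (0:ℝ) 1, ‖deriv (cur (fun _ => 0) (k0 w)) t‖ with hL
  have k2 : |H| ≤ (4 + 20 * w) / (99 / 40 * Real.pi * w) := by
    rw [le_div_iff₀ (by positivity)]
    exact k1
  refine k2.trans ?_
  have k3 : 6 / 7 * (4 / (2 * (21 / 20 * Real.pi * w))) ≤ 6 / 7 * (L / (2 * (21 / 20 * Real.pi * w))) :=
    mul_le_mul_of_nonneg_left (div_le_div_of_nonneg_right i1 (by positivity)) (by norm_num)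
  refine le_trans ?_ k3
  have e0 : 6 / 7 * (4 / (2 * (21 / 20 * Real.pi * w))) =
      (6 / 7 * 4) / (2 * (21 / 20 * Real.pi * w)) := by ring
  rw [e0, div_le_div_iff₀ (by positivity) (by positivity)]
  have hpw : 0 < Real.pi * w := by positivity
  have e3 : (4 + 20 * w) * (2 * (21 / 20 * Real.pi * w)) =
      (Real.pi * w) * ((4 + 20 * w) * (21 / 10)) := by ring
  have e4 : 6 / 7 * 4 * (99 / 40 * Real.pi * w) = (Real.pi * w) * (6 / 7 * 4 * (99 / 40)) := by
    ring
  rw [e3, e4]
  refine mul_le_mul_of_nonneg_left ?_ hpw.le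
  rw [hw]
  norm_num

/-- **The interval of Q1 is too large by an arbitrary factor, also for fixed area, and by a factor
of at least `7/6` for some convex curves.** (1) For every `K` there is a smooth simple closed plane
curve enclosing a domain `D` of area `π` with `L / (2 |D|) ≥ K`, for which every compact orientable
immersed surface of constant mean curvature `H` satisfies `|H| ≤ 8`. (2) There is a smooth simple
closed plane curve enclosing a convex domain such that `|H| ≤ 6/7 · L / (2 |D|)` for every such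
surface. -/
theorem result :
    (∀ K : ℝ, ∃ (γ : ℝ → E2) (D : Set E2), IsSimpleClosed γ ∧ Encloses (range γ) D ∧
      area D = Real.pi ∧ K ≤ length γ / (2 * area D) ∧ HBound (range γ) 8) ∧
    ∃ (γ : ℝ → E2) (D : Set E2), IsSimpleClosed γ ∧ Encloses (range γ) D ∧ Convex ℝ D ∧
      HBound (range γ) (6 / 7 * (length γ / (2 * area D))) :=
  ⟨part1 Pool.Agent.Y748.CMC.thm Pool.Agent.Y905.CMC.thm Pool.Agent.Y681.CMC.Vol.thm Pool.Agent.Y974.CMC.thm,
    part2 Pool.Agent.Y748.CMC.thm Pool.Agent.Y905.CMC.thm Pool.Agent.Y681.CMC.Vol.thm Pool.Agent.Y145.CMC.thm Pool.Agent.Y507.CMC.Int2.thm⟩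

end Pool.Agent.Results.MP_07eaf5_gt.SmallFraction
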